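import Pool.Agent.CrossTree.Tree

/-!
# Crossing pairs from the tree of placed vertices
-/

set_option autoImplicit false
set_option linter.unusedSectionVars false

namespace Pool.Agent.CrossTree

variable {S : Type*} [DecidableEq S] {κ : Type*} [DecidableEq κ]

/-- The words of length at most `L`. -/
noncomputable def words (κ : Type*) [DecidableEq κ] [Fintype κ] (L : ℕ) : Finset (List κ) :=
  (Finset.range (L + 1)).biUnion fun j => (Finset.univ : Finset (Fin j → κ)).image List.ofFn

theorem mem_words [Fintype κ] {L : ℕ} {w : List κ} (hw : w.length ≤ L) : w ∈ words κ L := by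
  refine Finset.mem_biUnion.mpr ⟨w.length, Finset.mem_range.mpr (by omega),
    Finset.mem_image.mpr ⟨fun i => w.get i, Finset.mem_univ _, List.ofFn_get w⟩⟩

theorem card_words [Fintype κ] (L : ℕ) (hκ : 2 ≤ Fintype.card κ) :
    (words κ L).card < Fintype.card κ ^ (L + 1) := by
  calc (words κ L).card ≤ ∑ j ∈ Finset.range (L + 1),
        ((Finset.univ : Finset (Fin j → κ)).image List.ofFn).card := Finset.card_biUnion_le
    _ ≤ ∑ j ∈ Finset.range (L + 1), Fintype.card κ ^ j := by
        refine Finset.sum_le_sum fun j _ => Finset.card_image_le.trans (le_of_eq ?_)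
        rw [Finset.card_univ, Fintype.card_fun, Fintype.card_fin]
    _ < Fintype.card κ ^ (L + 1) := Nat.geomSum_lt hκ fun k hk => Finset.mem_range.mp hk

theorem sum_count [Fintype κ] (p : List κ) : ∑ c, p.count c = p.length := by
  induction p with
  | nil => simp
  | cons a p ih =>
    simp only [List.count_cons, Finset.sum_add_distrib, ih, List.length_cons]
    simp

theorem length_le [Fintype κ] {s : ℕ} {p : List κ} (h : ∀ c, p.count c < s) :
    p.length ≤ Fintype.card κ * (s - 1) := by
  rw [← sum_count]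
  calc ∑ c, p.count c ≤ ∑ _c : κ, (s - 1) := Finset.sum_le_sum fun c _ => by
        have := h c
        omega
    _ = _ := by rw [Finset.sum_const, Finset.card_univ, smul_eq_mul]

theorem pos_mem_words [Fintype κ] {s : ℕ} {w : List κ}
    (h : ∀ c p, (c :: p) <:+ w → ∀ c', p.count c' < s) :
    w ∈ words κ (Fintype.card κ * (s - 1) + 1) := by
  cases w with
  | nil => exact mem_words (Nat.zero_le _)
  | cons c p =>
    refine mem_words ?_
    rw [List.length_cons]
    exact Nat.succ_le_succ (length_le (h c p (List.suffix_refl _)))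

/-- The positions above `w` at which the path goes to the child `c`. -/
def occ (c : κ) : List κ → List (List κ)
  | [] => []
  | d :: w => if d = c then w :: occ c w else occ c w

theorem length_occ (c : κ) (w : List κ) : (occ c w).length = w.count c := by
  induction w with
  | nil => rfl
  | cons d w ih =>
    unfold occ
    by_cases h : d = c
    · rw [if_pos h, List.length_cons, ih, h, List.count_cons_self]
    · rw [if_neg h, ih, List.count_cons_of_ne h]

theorem mem_occ {c : κ} {w p : List κ} : p ∈ occ c w ↔ (c :: p) <:+ w := by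
  induction w with
  | nil =>
    unfold occ
    constructor
    · intro h
      exact absurd h (List.not_mem_nil)
    · intro h
      have := List.suffix_nil.mp h
      exact absurd this (by simp)
  | cons d w ih =>
    unfold occ
    rw [List.suffix_cons_iff, ← ih]
    by_cases h : d = c
    · rw [if_pos h, List.mem_cons]
      subst h
      constructor
      · rintro (h1 | h1)
        · exact Or.inl (by rw [h1])
        · exact Or.inr h1
      · rintro (h1 | h1)
        · injection h1 with _ h2
          exact Or.inl h2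
        · exact Or.inr h1
    · rw [if_neg h]
      constructor
      · exact Or.inr
      · rintro (h1 | h1)
        · injection h1 with h2 _
          exact absurd h2.symm h
        · exact h1

theorem length_lt_of_suffix {c : κ} {p w : List κ} (h : (c :: p) <:+ w) :
    p.length < w.length := by
  have := h.length_le
  rw [List.length_cons] at this
  omega

theorem nodup_occ (c : κ) (w : List κ) : (occ c w).Nodup := by
  induction w with
  | nil => exact List.nodup_nil
  | cons d w ih =>
    unfold occ
    by_cases h : d = c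
    · rw [if_pos h, List.nodup_cons]
      refine ⟨fun h1 => ?_, ih⟩
      exact absurd (length_lt_of_suffix (mem_occ.mp h1)) (lt_irrefl _)
    · rw [if_neg h]
      exact ih

theorem occ_comp {c : κ} {w p p' : List κ} (hp : (c :: p) <:+ w) (hp' : (c :: p') <:+ w)
    (hne : p ≠ p') : (c :: p) <:+ p' ∨ (c :: p') <:+ p := by
  rcases List.suffix_or_suffix_of_suffix hp hp' with h | h
  · rcases List.suffix_cons_iff.mp h with h1 | h1
    · injection h1 with _ h2
      exact absurd h2 hne
    · exact Or.inl h1
  · rcases List.suffix_cons_iff.mp h with h1 | h1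
    · injection h1 with _ h2
      exact absurd h2.symm hne
    · exact Or.inr h1

/-- The pair of a terminal position. -/
theorem pair {f : S → S → S → κ} (hs : ∀ x y z, f x y z = f y x z)
    (hs' : ∀ x y z, f x y z = f x z y) {s m : ℕ} {W : Finset S} {D : Finset (List κ)}
    {v : List κ → S} {K : List κ → Finset S} (h : St f s W D v K) {w : List κ} {c : κ}
    (hw : w.count c = s) (hm : m ≤ (K w).card) (hm1 : 1 ≤ m) :
    ∃ A B : Finset S, Disjoint A B ∧ A.card = m ∧ B.card = s ∧
      (∀ b ∈ B, ∀ a ∈ A, ∀ a' ∈ A, a ≠ a' → f b a a' = c) ∧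
      (∀ b ∈ B, ∀ b' ∈ B, b ≠ b' → ∀ a ∈ A, f b b' a = c) ∧
      ∀ b ∈ B, ∀ b' ∈ B, ∀ b'' ∈ B, b ≠ b' → b ≠ b'' → b' ≠ b'' → f b b' b'' = c := by
  obtain ⟨A, hA, hAc⟩ := Finset.exists_subset_card_eq hm
  have hne : (K w).Nonempty := by
    rw [← Finset.card_pos]
    omega
  have hD : ∀ p, (c :: p) <:+ w → p ∈ D := h.up w hne c
  have hvK : ∀ p ∈ D, v p ∈ K p := fun p hp => by
    rw [h.single p hp]
    exact Finset.mem_singleton_self _
  have hinj : ∀ p ∈ D, ∀ p' ∈ D, v p = v p' → p = p' := by
    intro p hp p' hp' h1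
    by_contra h2
    exact Finset.disjoint_left.mp (h.dis p p' h2) (hvK p hp) (h1 ▸ hvK p' hp')
  -- three vertices of the path
  have key : ∀ p p' p'', (c :: p) <:+ p' → (c :: p') <:+ p'' → p'' ∈ D →
      f (v p) (v p') (v p'') = c := fun p p' p'' h1 h2 h3 =>
    h.col3 p'' (v p'') (hvK p'' h3) c c p p' h1 h2
  refine ⟨A, (occ c w).toFinset.image v, ?_, hAc, ?_, ?_, ?_, ?_⟩
  · rw [Finset.disjoint_left]
    intro a ha hb
    obtain ⟨p, hp, rfl⟩ := Finset.mem_image.mp hb
    have h1 := mem_occ.mp (List.mem_toFinset.mp hp)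
    have h2 : w ≠ p := fun h3 => by
      have h4 := length_lt_of_suffix h1
      rw [← h3] at h4
      exact absurd h4 (lt_irrefl _)
    exact Finset.disjoint_left.mp (h.dis w p h2) (hA ha) (hvK p (hD p h1))
  · rw [Finset.card_image_of_injOn, List.toFinset_card_of_nodup (nodup_occ c w), length_occ, hw]
    intro p hp p' hp' h1
    exact hinj p (hD p (mem_occ.mp (List.mem_toFinset.mp hp))) p'
      (hD p' (mem_occ.mp (List.mem_toFinset.mp hp'))) h1
  · intro b hb a ha a' ha' haa
    obtain ⟨p, hp, rfl⟩ := Finset.mem_image.mp hb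
    exact h.col2 w a (hA ha) a' (hA ha') haa c p (mem_occ.mp (List.mem_toFinset.mp hp))
  · intro b hb b' hb' hbb a ha
    obtain ⟨p, hp, rfl⟩ := Finset.mem_image.mp hb
    obtain ⟨p', hp', rfl⟩ := Finset.mem_image.mp hb'
    have h1 := mem_occ.mp (List.mem_toFinset.mp hp)
    have h2 := mem_occ.mp (List.mem_toFinset.mp hp')
    rcases occ_comp h1 h2 (fun h3 => hbb (by rw [h3])) with h3 | h3
    · exact h.col3 w a (hA ha) c c p p' h3 h2
    · rw [hs]
      exact h.col3 w a (hA ha) c c p' p h3 h1
  · intro b hb b' hb' b'' hb'' h12 h13 h23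
    obtain ⟨p, hp, rfl⟩ := Finset.mem_image.mp hb
    obtain ⟨p', hp', rfl⟩ := Finset.mem_image.mp hb'
    obtain ⟨p'', hp'', rfl⟩ := Finset.mem_image.mp hb''
    have h1 := mem_occ.mp (List.mem_toFinset.mp hp)
    have h2 := mem_occ.mp (List.mem_toFinset.mp hp')
    have h3 := mem_occ.mp (List.mem_toFinset.mp hp'')
    rcases occ_comp h1 h2 (fun h => h12 (by rw [h])) with e1 | e1 <;>
      rcases occ_comp h1 h3 (fun h => h13 (by rw [h])) with e2 | e2 <;>
      rcases occ_comp h2 h3 (fun h => h23 (by rw [h])) with e3 | e3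
    · exact key p p' p'' e1 e3 (hD _ h3)
    · rw [hs']
      exact key p p'' p' e2 e3 (hD _ h2)
    · exact absurd (length_lt_of_suffix e1) (by
        have := length_lt_of_suffix e2
        have := length_lt_of_suffix e3
        omega)
    · rw [hs', hs]
      exact key p'' p p' e2 e1 (hD _ h2)
    · rw [hs]
      exact key p' p p'' e1 e2 (hD _ h3)
    · exact absurd (length_lt_of_suffix e1) (by
        have := length_lt_of_suffix e2
        have := length_lt_of_suffix e3
        omega)
    · rw [hs, hs']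
      exact key p' p'' p e3 e2 (hD _ h1)
    · rw [hs, hs', hs]
      exact key p'' p' p e3 e1 (hD _ h1)

/-- Crossing pairs. -/
theorem exists_pair [Fintype κ] (hκ : 2 ≤ Fintype.card κ) (f : S → S → S → κ)
    (hs : ∀ x y z, f x y z = f y x z) (hs' : ∀ x y z, f x y z = f x z y) (s m : ℕ)
    (hs1 : 1 ≤ s) (hm1 : 1 ≤ m) (W : Finset S)
    (hW : (2 * Fintype.card κ ^ (Fintype.card κ * s)) ^
      (m * Fintype.card κ ^ (Fintype.card κ * s)) ≤ W.card) :
    ∃ (c : κ) (A B : Finset S), Disjoint A B ∧ A.card = m ∧ B.card = s ∧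
      (∀ b ∈ B, ∀ a ∈ A, ∀ a' ∈ A, a ≠ a' → f b a a' = c) ∧
      (∀ b ∈ B, ∀ b' ∈ B, b ≠ b' → ∀ a ∈ A, f b b' a = c) ∧
      ∀ b ∈ B, ∀ b' ∈ B, ∀ b'' ∈ B, b ≠ b' → b ≠ b'' → b' ≠ b'' → f b b' b'' = c := by
  set q := Fintype.card κ with hq
  set P := words κ (q * (s - 1) + 1) with hP
  have hPQ : P.card < q ^ (q * s) := by
    refine (card_words (κ := κ) (q * (s - 1) + 1) hκ).trans_le ?_
    refine Nat.pow_le_pow_right (by omega) ?_
    obtain ⟨s', rfl⟩ : ∃ s', s = s' + 1 := ⟨s - 1, by omega⟩
    rw [Nat.add_sub_cancel, Nat.mul_add]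
    omega
  have hPpos : 1 ≤ P.card := Finset.card_pos.mpr ⟨[], mem_words (Nat.zero_le _)⟩
  have hQ : 0 < q ^ (q * s) := by positivity
  have hWpos : 0 < W.card := lt_of_lt_of_le (by positivity) hW
  obtain ⟨W', D, v, K, h1, -, h3⟩ := steps hs' P (s := s) (fun w hw => pos_mem_words hw) hPpos W
    (Finset.card_pos.mp hWpos) (m * q ^ (q * s)) (by
      refine le_trans (Nat.pow_le_pow_left ?_ _) hW
      exact Nat.mul_le_mul_left _ hPQ.le) (m * q ^ (q * s)) le_rfl
  obtain ⟨w, hw, hcard⟩ : ∃ w ∈ P, m < (K w).card := by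
    by_contra hcon
    push Not at hcon
    have h4 : ∑ w ∈ P, (K w).card ≤ P.card * m := by
      calc ∑ w ∈ P, (K w).card ≤ ∑ _w ∈ P, m := Finset.sum_le_sum hcon
        _ = _ := by rw [Finset.sum_const, smul_eq_mul]
    rw [h3] at h4
    have h5 : P.card * m < m * q ^ (q * s) := by
      rw [Nat.mul_comm]
      exact Nat.mul_lt_mul_of_pos_left hPQ hm1
    omega
  obtain ⟨c, hc⟩ : ∃ c, w.count c = s := by
    rcases h1.kind w (Finset.card_pos.mp (by omega)) with h4 | h4
    · rw [h1.single w h4, Finset.card_singleton] at hcard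
      omega
    · exact h4
  exact ⟨c, pair hs hs' h1 hc hcard.le hm1⟩

end Pool.Agent.CrossTree
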