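import Mathlib

/-!
# The tree of placed vertices

A position is a word of colours (the last colour first). `D` is the set of the occupied internal
positions (every colour occurs less than `s` times), `v` gives their vertices, `K w` is the set of
the vertices at the position `w` (one vertex for `w ∈ D`, a chain if some colour occurs `s` times).
Every pair `(y, x)` of points of `W` walks down the tree, at `v p` to the child `f (v p) y x`. The
most popular free or terminal position gets the vertex `y`, and `W` is replaced by the set of the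
`x` for which `(y, x)` ends there.
-/

set_option autoImplicit false
set_option linter.unusedSectionVars false

namespace Pool.Agent.CrossTree

variable {S : Type*} [DecidableEq S] {κ : Type*} [DecidableEq κ]

/-- The state of the process. -/
structure St (f : S → S → S → κ) (s : ℕ) (W : Finset S) (D : Finset (List κ)) (v : List κ → S)
    (K : List κ → Finset S) : Prop where
  int : ∀ p ∈ D, ∀ c, p.count c < s
  single : ∀ p ∈ D, K p = {v p}
  up : ∀ w, (K w).Nonempty → ∀ c p, (c :: p) <:+ w → p ∈ D
  kind : ∀ w, (K w).Nonempty → w ∈ D ∨ ∃ c, w.count c = s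
  out : ∀ w, ∀ a ∈ K w, a ∉ W
  dis : ∀ w w', w ≠ w' → Disjoint (K w) (K w')
  col : ∀ w, ∀ a ∈ K w, ∀ c p, (c :: p) <:+ w → ∀ x ∈ W, f (v p) a x = c
  col2 : ∀ w, ∀ a ∈ K w, ∀ a' ∈ K w, a ≠ a' → ∀ c p, (c :: p) <:+ w → f (v p) a a' = c
  col3 : ∀ w, ∀ a ∈ K w, ∀ c c' p p', (c :: p) <:+ p' → (c' :: p') <:+ w →
    f (v p) (v p') a = c

/-- Every pair walks down to a position which is not in `D`. -/
theorem walk {f : S → S → S → κ} {s : ℕ} {W : Finset S} {D : Finset (List κ)} {v : List κ → S}
    {K : List κ → Finset S} (h : St f s W D v K) (y x : S) :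
    ∃ w, w ∉ D ∧ ∀ c p, (c :: p) <:+ w → p ∈ D ∧ f (v p) y x = c := by
  classical
  by_cases h0 : ([] : List κ) ∈ D
  · obtain ⟨w, hw, hmax⟩ := Finset.exists_max_image
      (D.filter fun w => ∀ c p, (c :: p) <:+ w → f (v p) y x = c) List.length
      ⟨[], Finset.mem_filter.mpr ⟨h0, fun c p hp => by
        have := List.suffix_nil.mp hp
        exact absurd this (by simp)⟩⟩
    obtain ⟨hwD, hwf⟩ := Finset.mem_filter.mp hw
    have hup : ∀ c p, (c :: p) <:+ w → p ∈ D := h.up w (by
      rw [h.single w hwD]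
      exact Finset.singleton_nonempty _)
    have key : ∀ c p, (c :: p) <:+ (f (v w) y x :: w) → p ∈ D ∧ f (v p) y x = c := by
      intro c p hp
      rcases List.suffix_cons_iff.mp hp with h1 | h1
      · injection h1 with h2 h3
        subst h3
        exact ⟨hwD, h2.symm⟩
      · exact ⟨hup c p h1, hwf c p h1⟩
    refine ⟨f (v w) y x :: w, fun hmem => ?_, key⟩
    have h2 := hmax _ (Finset.mem_filter.mpr ⟨hmem, fun c p hp => (key c p hp).2⟩)
    rw [List.length_cons] at h2
    omega
  · refine ⟨[], h0, fun c p hp => ?_⟩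
    have := List.suffix_nil.mp hp
    exact absurd this (by simp)

/-- A popular value of a function. -/
theorem popular {α β : Type*} [DecidableEq β] (s : Finset α) (g : α → β) (N : ℕ)
    (hs : s.Nonempty) (hN : (s.image g).card ≤ N) :
    ∃ a ∈ s, s.card ≤ N * (s.filter fun y => g y = g a).card := by
  obtain ⟨v, hv, hmax⟩ := Finset.exists_max_image (s.image g)
    (fun v => (s.filter fun y => g y = v).card) (hs.image g)
  obtain ⟨a, ha, rfl⟩ := Finset.mem_image.mp hv
  refine ⟨a, ha, ?_⟩
  calc s.card ≤ (s.filter fun y => g y = g a).card * (s.image g).card :=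
        Finset.card_le_mul_card_image s _ hmax
    _ ≤ (s.filter fun y => g y = g a).card * N := Nat.mul_le_mul_left _ hN
    _ = _ := Nat.mul_comm _ _

/-- The popular position. -/
theorem popular_pos {β : Type*} [DecidableEq β] (W : Finset S) (pos : S → S → β) (P : Finset β)
    (hpos : ∀ y ∈ W, ∀ x ∈ W, pos y x ∈ P) (hW : 2 ≤ W.card) :
    ∃ y ∈ W, ∃ w ∈ P,
      W.card ≤ 2 * P.card * (W.filter fun x => x ≠ y ∧ pos y x = w).card := by
  have hoff : W.card ^ 2 ≤ 2 * W.offDiag.card := by
    rw [Finset.offDiag_card]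
    have h1 : W.card * 2 ≤ W.card * W.card := Nat.mul_le_mul_left _ hW
    rw [pow_two]
    omega
  have hne : W.offDiag.Nonempty := by
    rw [← Finset.card_pos]
    have h2 : 0 < W.card ^ 2 := by positivity
    omega
  obtain ⟨q0, hq0, h1⟩ := popular W.offDiag (fun q => pos q.1 q.2) P.card hne
    (Finset.card_le_card fun b hb => by
      obtain ⟨q, hq, rfl⟩ := Finset.mem_image.mp hb
      obtain ⟨h3, h4, -⟩ := Finset.mem_offDiag.mp hq
      exact hpos _ h3 _ h4)
  set F := W.offDiag.filter fun q => pos q.1 q.2 = pos q0.1 q0.2 with hF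
  obtain ⟨q1, hq1, h2⟩ := popular F (fun q => q.1) W.card ⟨q0, Finset.mem_filter.mpr ⟨hq0, rfl⟩⟩
    (Finset.card_le_card fun b hb => by
      obtain ⟨q, hq, rfl⟩ := Finset.mem_image.mp hb
      exact (Finset.mem_offDiag.mp (Finset.mem_filter.mp hq).1).1)
  have hq1W := Finset.mem_offDiag.mp (Finset.mem_filter.mp hq1).1
  have hq0W := Finset.mem_offDiag.mp hq0
  refine ⟨q1.1, hq1W.1, pos q0.1 q0.2, hpos _ hq0W.1 _ hq0W.2.1, ?_⟩
  have h3 : (F.filter fun q => q.1 = q1.1).card ≤
      (W.filter fun x => x ≠ q1.1 ∧ pos q1.1 x = pos q0.1 q0.2).card := by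
    refine Finset.card_le_card_of_injOn (fun q => q.2) ?_ ?_
    · intro q hq
      obtain ⟨h4, h5⟩ := Finset.mem_filter.mp hq
      obtain ⟨h6, h7⟩ := Finset.mem_filter.mp h4
      obtain ⟨-, h8, h9⟩ := Finset.mem_offDiag.mp h6
      refine Finset.mem_coe.mpr (Finset.mem_filter.mpr ⟨h8, ?_, ?_⟩)
      · rw [← h5]
        exact h9.symm
      · rw [← h5]
        exact h7
    · intro q hq q' hq' h4
      have h5 := (Finset.mem_filter.mp hq).2
      have h6 := (Finset.mem_filter.mp hq').2
      exact Prod.ext (h5.trans h6.symm) h4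
  have hWpos : 0 < W.card := by omega
  have h4 : W.card * W.card ≤ W.card * (2 * P.card *
      (W.filter fun x => x ≠ q1.1 ∧ pos q1.1 x = pos q0.1 q0.2).card) := by
    calc W.card * W.card = W.card ^ 2 := by ring
      _ ≤ 2 * W.offDiag.card := hoff
      _ ≤ 2 * (P.card * F.card) := Nat.mul_le_mul_left _ h1
      _ ≤ 2 * (P.card * (W.card * (F.filter fun q => q.1 = q1.1).card)) := by gcongr
      _ ≤ 2 * (P.card * (W.card *
          (W.filter fun x => x ≠ q1.1 ∧ pos q1.1 x = pos q0.1 q0.2).card)) := by gcongr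
      _ = _ := by ring
  exact Nat.le_of_mul_le_mul_left h4 hWpos

/-- One step of the process. -/
theorem step {f : S → S → S → κ} (hs' : ∀ x y z, f x y z = f x z y) {s : ℕ} {W : Finset S}
    {D : Finset (List κ)} {v : List κ → S}
    {K : List κ → Finset S} (h : St f s W D v K) (P : Finset (List κ)) (hP : ∀ w : List κ,
      (∀ c p, (c :: p) <:+ w → ∀ c', p.count c' < s) → w ∈ P) (hW : 2 ≤ W.card) :
    ∃ (W' : Finset S) (D' : Finset (List κ)) (v' : List κ → S) (K' : List κ → Finset S),
      St f s W' D' v' K' ∧ W.card ≤ 2 * P.card * W'.card ∧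
        ∑ w ∈ P, (K' w).card = ∑ w ∈ P, (K w).card + 1 := by
  classical
  choose pos hpos1 hpos2 using walk h
  obtain ⟨y, hy, w, hw, hcard⟩ := popular_pos W pos P (fun y _ x _ => hP _ fun c p hp c' =>
    h.int p (hpos2 y x c p hp).1 c') hW
  set W' := W.filter fun x => x ≠ y ∧ pos y x = w with hW'
  have hW'W : W' ⊆ W := Finset.filter_subset _ _
  have hW'pos : 0 < W'.card := by
    rcases Nat.eq_zero_or_pos W'.card with h1 | h1
    · rw [h1, Nat.mul_zero] at hcard
      omega
    · exact h1
  have hyW' : y ∉ W' := fun h1 => (Finset.mem_filter.mp h1).2.1 rfl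
  have hcolW : ∀ c p, (c :: p) <:+ w → ∀ x ∈ W', f (v p) y x = c := by
    intro c p hp x hx
    obtain ⟨-, -, h1⟩ := Finset.mem_filter.mp hx
    exact (hpos2 y x c p (by rw [h1]; exact hp)).2
  obtain ⟨x0, hx0⟩ := Finset.card_pos.mp hW'pos
  have hx0w : pos y x0 = w := (Finset.mem_filter.mp hx0).2.2
  have hwD : w ∉ D := by
    rw [← hx0w]
    exact hpos1 y x0
  have hwup : ∀ c p, (c :: p) <:+ w → p ∈ D := fun c p hp =>
    (hpos2 y x0 c p (by rw [hx0w]; exact hp)).1
  have hyK : ∀ u, y ∉ K u := fun u hu => h.out u y hu hy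
  -- the new contents
  obtain ⟨K', hK'⟩ : ∃ K', K' = Function.update K w (insert y (K w)) := ⟨_, rfl⟩
  have hK'w : K' w = insert y (K w) := by rw [hK', Function.update_self]
  have hK'u : ∀ u, u ≠ w → K' u = K u := fun u hu => by rw [hK', Function.update_of_ne hu]
  have hsum : ∑ u ∈ P, (K' u).card = ∑ u ∈ P, (K u).card + 1 := by
    rw [← Finset.add_sum_erase P _ hw, ← Finset.add_sum_erase P (fun u => (K u).card) hw,
      hK'w, Finset.card_insert_of_notMem (hyK w)]
    have h1 : ∑ u ∈ P.erase w, (K' u).card = ∑ u ∈ P.erase w, (K u).card :=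
      Finset.sum_congr rfl fun u hu => by rw [hK'u u (Finset.ne_of_mem_erase hu)]
    rw [h1]
    ring
  have hmem : ∀ u a, a ∈ K' u → (u = w ∧ a = y) ∨ a ∈ K u := by
    intro u a ha
    by_cases hu : u = w
    · subst hu
      rw [hK'w] at ha
      rcases Finset.mem_insert.mp ha with h1 | h1
      · exact Or.inl ⟨rfl, h1⟩
      · exact Or.inr h1
    · rw [hK'u u hu] at ha
      exact Or.inr ha
  -- the new vertices agree with the old ones above every position with contents
  have hout : ∀ u, ∀ a ∈ K' u, a ∉ W' := by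
    intro u a ha ha'
    rcases hmem u a ha with ⟨-, rfl⟩ | h1
    · exact hyW' ha'
    · exact h.out u a h1 (hW'W ha')
  have hdis : ∀ u u', u ≠ u' → Disjoint (K' u) (K' u') := by
    intro u u' huu
    rw [Finset.disjoint_left]
    intro a ha ha'
    rcases hmem u a ha with ⟨h1, h2⟩ | h1
    · rcases hmem u' a ha' with ⟨h3, -⟩ | h3
      · exact huu (h1.trans h3.symm)
      · exact hyK u' (h2 ▸ h3)
    · rcases hmem u' a ha' with ⟨h3, h4⟩ | h3
      · exact hyK u (h4 ▸ h1)
      · exact Finset.disjoint_left.mp (h.dis u u' huu) h1 h3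
  by_cases hint : ∀ c, w.count c < s
  · -- an internal position
    have hKw : K w = ∅ := by
      by_contra hne
      rcases h.kind w (Finset.nonempty_iff_ne_empty.mpr hne) with h1 | ⟨c, h1⟩
      · exact hwD h1
      · exact absurd (hint c) (by omega)
    obtain ⟨v', hv'⟩ : ∃ v', v' = Function.update v w y := ⟨_, rfl⟩
    have hv'w : v' w = y := by rw [hv', Function.update_self]
    have hv'u : ∀ u ∈ D, v' u = v u := by
      intro u hu
      have h1 : u ≠ w := fun h2 => hwD (h2 ▸ hu)
      rw [hv', Function.update_of_ne h1]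
    have hup : ∀ u, (K' u).Nonempty → ∀ c p, (c :: p) <:+ u → p ∈ D := by
      rintro u ⟨a, ha⟩ c p hp
      rcases hmem u a ha with ⟨rfl, -⟩ | h1
      · exact hwup c p hp
      · exact h.up u ⟨a, h1⟩ c p hp
    refine ⟨W', insert w D, v', K', ⟨?_, ?_, ?_, ?_, hout, hdis, ?_, ?_, ?_⟩, hcard, hsum⟩
    · intro p hp
      rcases Finset.mem_insert.mp hp with rfl | h1
      · exact hint
      · exact h.int p h1
    · intro p hp
      rcases Finset.mem_insert.mp hp with rfl | h1
      · rw [hK'w, hKw, hv'w]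
        rfl
      · rw [hK'u p (fun h2 => hwD (h2 ▸ h1)), hv'u p h1]
        exact h.single p h1
    · intro u hu c p hp
      exact Finset.mem_insert_of_mem (hup u hu c p hp)
    · rintro u ⟨a, ha⟩
      rcases hmem u a ha with ⟨rfl, -⟩ | h1
      · exact Or.inl (Finset.mem_insert_self _ _)
      · rcases h.kind u ⟨a, h1⟩ with h2 | h2
        · exact Or.inl (Finset.mem_insert_of_mem h2)
        · exact Or.inr h2
    · intro u a ha c p hp x hx
      rw [hv'u p (hup u ⟨a, ha⟩ c p hp)]
      rcases hmem u a ha with ⟨rfl, rfl⟩ | h1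
      · exact hcolW c p hp x hx
      · exact h.col u a h1 c p hp x (hW'W hx)
    · intro u a ha a' ha' hne c p hp
      rw [hv'u p (hup u ⟨a, ha⟩ c p hp)]
      rcases hmem u a ha with ⟨h0, h1⟩ | h1
      · rcases hmem u a' ha' with ⟨-, h2⟩ | h2
        · exact absurd (h1.trans h2.symm) hne
        · rw [h1, hs']
          exact h.col u a' h2 c p hp y hy
      · rcases hmem u a' ha' with ⟨-, h2⟩ | h2
        · rw [h2]
          exact h.col u a h1 c p hp y hy
        · exact h.col2 u a h1 a' h2 hne c p hp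
    · intro u a ha c c' p p' hp hp'
      have h3 : p' ∈ D := hup u ⟨a, ha⟩ c' p' hp'
      have h4 : p ∈ D := hup u ⟨a, ha⟩ c p (hp.trans ((List.suffix_cons c' p').trans hp'))
      rw [hv'u p h4, hv'u p' h3]
      rcases hmem u a ha with ⟨-, h1⟩ | h1
      · rw [h1]
        exact h.col p' (v p') (by rw [h.single p' h3]; exact Finset.mem_singleton_self _)
          c p hp y hy
      · exact h.col3 u a h1 c c' p p' hp hp'
  · -- a terminal position
    push Not at hint
    obtain ⟨c0, hc0⟩ := hint
    have hterm : w.count c0 = s := by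
      refine le_antisymm ?_ hc0
      cases w with
      | nil =>
        rw [List.count_nil]
        exact Nat.zero_le _
      | cons c1 p =>
        have h1 := h.int p (hwup c1 p (List.suffix_refl _)) c0
        have h2 := List.count_cons (a := c0) (b := c1) (l := p)
        rw [h2]
        split_ifs <;> omega
    refine ⟨W', D, v, K', ⟨h.int, ?_, ?_, ?_, hout, hdis, ?_, ?_, ?_⟩, hcard, hsum⟩
    · intro p hp
      rw [hK'u p (fun h2 => hwD (h2 ▸ hp))]
      exact h.single p hp
    · rintro u ⟨a, ha⟩ c p hp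
      rcases hmem u a ha with ⟨rfl, -⟩ | h1
      · exact hwup c p hp
      · exact h.up u ⟨a, h1⟩ c p hp
    · rintro u ⟨a, ha⟩
      rcases hmem u a ha with ⟨rfl, -⟩ | h1
      · exact Or.inr ⟨c0, hterm⟩
      · exact h.kind u ⟨a, h1⟩
    · intro u a ha c p hp x hx
      rcases hmem u a ha with ⟨rfl, rfl⟩ | h1
      · exact hcolW c p hp x hx
      · exact h.col u a h1 c p hp x (hW'W hx)
    · intro u a ha a' ha' hne c p hp
      rcases hmem u a ha with ⟨h0, h1⟩ | h1
      · rcases hmem u a' ha' with ⟨-, h2⟩ | h2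
        · exact absurd (h1.trans h2.symm) hne
        · rw [h1, hs']
          exact h.col u a' h2 c p hp y hy
      · rcases hmem u a' ha' with ⟨-, h2⟩ | h2
        · rw [h2]
          exact h.col u a h1 c p hp y hy
        · exact h.col2 u a h1 a' h2 hne c p hp
    · intro u a ha c c' p p' hp hp'
      rcases hmem u a ha with ⟨h0, h1⟩ | h1
      · rw [h0] at hp'
        have h3 : p' ∈ D := hwup c' p' hp'
        rw [h1]
        exact h.col p' (v p') (by rw [h.single p' h3]; exact Finset.mem_singleton_self _)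
          c p hp y hy
      · exact h.col3 u a h1 c c' p p' hp hp'

/-- All the steps. -/
theorem steps {f : S → S → S → κ} (hs' : ∀ x y z, f x y z = f x z y) {s : ℕ}
    (P : Finset (List κ)) (hP : ∀ w : List κ,
      (∀ c p, (c :: p) <:+ w → ∀ c', p.count c' < s) → w ∈ P) (hPpos : 1 ≤ P.card)
    (W₀ : Finset S) (hne : W₀.Nonempty) :
    ∀ T : ℕ, (2 * P.card) ^ T ≤ W₀.card →
      ∀ j ≤ T, ∃ (W : Finset S) (D : Finset (List κ)) (v : List κ → S) (K : List κ → Finset S),
        St f s W D v K ∧ (2 * P.card) ^ (T - j) ≤ W.card ∧ ∑ w ∈ P, (K w).card = j := by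
  intro T hT j
  induction j with
  | zero =>
    intro _
    obtain ⟨x0, -⟩ := hne
    refine ⟨W₀, ∅, fun _ => x0, fun _ => ∅, ⟨?_, ?_, ?_, ?_, ?_, ?_, ?_, ?_, ?_⟩, ?_, ?_⟩
    · intro p hp
      exact absurd hp (Finset.notMem_empty p)
    · intro p hp
      exact absurd hp (Finset.notMem_empty p)
    · rintro w ⟨a, ha⟩
      exact absurd ha (Finset.notMem_empty a)
    · rintro w ⟨a, ha⟩
      exact absurd ha (Finset.notMem_empty a)
    · intro w a ha
      exact absurd ha (Finset.notMem_empty a)
    · intro w w' _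
      exact Finset.disjoint_empty_left _
    · intro w a ha
      exact absurd ha (Finset.notMem_empty a)
    · intro w a ha
      exact absurd ha (Finset.notMem_empty a)
    · intro w a ha
      exact absurd ha (Finset.notMem_empty a)
    · rw [Nat.sub_zero]
      exact hT
    · simp
  | succ j ih =>
    intro hj
    obtain ⟨W, D, v, K, h1, h2, h3⟩ := ih (by omega)
    have h4 : T - j = (T - (j + 1)) + 1 := by omega
    rw [h4, pow_succ] at h2
    have hpos : 0 < (2 * P.card) ^ (T - (j + 1)) := by positivity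
    have hW2 : 2 ≤ W.card := by
      refine le_trans ?_ h2
      calc 2 ≤ 2 * P.card := by omega
        _ ≤ _ := Nat.le_mul_of_pos_left _ hpos
    obtain ⟨W', D', v', K', h5, h6, h7⟩ := step hs' h1 P hP hW2
    refine ⟨W', D', v', K', h5, ?_, by rw [h7, h3]⟩
    have h8 : 2 * P.card * (2 * P.card) ^ (T - (j + 1)) ≤ 2 * P.card * W'.card := by
      rw [Nat.mul_comm]
      exact h2.trans h6
    exact Nat.le_of_mul_le_mul_left h8 (by omega)

end Pool.Agent.CrossTree
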